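import Pool.Agent.helper275_conc.KissLow

/-!
# MP_b5f63d_co: kissing numbers of the lattices from Construction C

Construction C (the code formula) takes binary codes `C_0, …, C_{a-1} ⊆ {0,1}^n` and the points
`c_0 + 2 c_1 + … + 2^(a-1) c_{a-1} + 2^a z`, `c_i ∈ C_i`, `z ∈ ℤ^n`; `a` and the codes are arbitrary
and may depend on `n`. When the set of these points is a lattice, its shortest nonzero vectors, scaled
to norm 1, are a kissing configuration. We show that all kissing configurations obtained in this way
have at most `K n^3` points, `K` an absolute constant, and that `n^3/512` points are attained for all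
`n ≥ 4`; in particular their exponential growth rate is `0`.

Proof. If the points form a lattice, the codes are linear and the componentwise product of two words
of `C_i` is in `C_{i+1}`. Let `M` be the minimal squared norm. A minimal vector is `± 2^a e_k`, or `2^i`
times a signed word `c ∈ C_i` of weight `N_i = M / 4^i`, and two signings of `c` differ in a word of
`C_{i+1}` inside `c`. The words of `C_{i+1}` inside `c` are boundedly many (`≤ 2^1024`): a nonempty
intersection of at most 16 of them has at least `N_i / 1024` points, so by halving each of them contains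
one of at most 1024 atoms. Two words of weight `N_i` of `C_i` meet in at most `N_i / 2` points, and in a
set from `C_{i+1}`; sets from `C_{i+1}` which are nested differ by at least `N_i / 4` points. A maximal
subfamily with constant pairwise intersections has at most `2 n / N_i` members, so three
steps give at most `const (n / N_i)^3` words. Finally the sum over the levels is geometric.
-/

namespace Pool.Agent.Results.MP_b5f63d_co.ConstructionCKissing

/-- The points of Construction C: the points `∑_{i<a} 2^i c_i + 2^a z` with `c_i ∈ C_i` for `i < a`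
and `z ∈ ℤ^n`. A binary word is given by the set of its coordinates equal to `1`. -/
def constructionC {n : ℕ} (a : ℕ) (C : ℕ → Finset (Finset (Fin n))) :
    Set (EuclideanSpace ℝ (Fin n)) :=
  {x | ∃ (c : ℕ → Finset (Fin n)) (z : Fin n → ℤ), (∀ i < a, c i ∈ C i) ∧
    ∀ k, x k = ∑ i ∈ Finset.range a, 2 ^ i * (if k ∈ c i then (1 : ℝ) else 0) + 2 ^ a * z k}

/-- The lattice `Λ` (an additive subgroup of `ℝ^n`) is the set of points of Construction C for some
number of levels and some binary codes. -/
def IsConstructionC {n : ℕ} (Λ : AddSubgroup (EuclideanSpace ℝ (Fin n))) : Prop :=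
  ∃ (a : ℕ) (C : ℕ → Finset (Finset (Fin n))),
    (Λ : Set (EuclideanSpace ℝ (Fin n))) = constructionC a C

/-- The set of the shortest nonzero vectors of `Λ`; its size is the kissing number of `Λ`. -/
def minimalVectors {n : ℕ} (Λ : AddSubgroup (EuclideanSpace ℝ (Fin n))) :
    Set (EuclideanSpace ℝ (Fin n)) :=
  {x | x ∈ Λ ∧ x ≠ 0 ∧ ∀ y ∈ Λ, y ≠ 0 → ‖x‖ ≤ ‖y‖}

theorem result :
    -- the upper bound
    (∃ K : ℕ, ∀ n : ℕ, 0 < n → ∀ Λ : AddSubgroup (EuclideanSpace ℝ (Fin n)), IsConstructionC Λ →
      (minimalVectors Λ).Finite ∧ (minimalVectors Λ).ncard ≤ K * n ^ 3) ∧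
    -- the order `n^3` is attained
    (∀ n : ℕ, 4 ≤ n → ∃ Λ : AddSubgroup (EuclideanSpace ℝ (Fin n)), IsConstructionC Λ ∧
      n ^ 3 ≤ 512 * (minimalVectors Λ).ncard) ∧
    -- minimal vectors of a lattice are a kissing configuration
    (∀ n : ℕ, ∀ Λ : AddSubgroup (EuclideanSpace ℝ (Fin n)), ∀ x ∈ minimalVectors Λ,
      ∀ y ∈ minimalVectors Λ, x ≠ y → Real.pi / 3 ≤ InnerProductGeometry.angle x y) := by
  obtain ⟨K, hK⟩ := Pool.Agent.helper275_conc.kiss3
  have hup : ∀ n : ℕ, 0 < n → ∀ Λ : AddSubgroup (EuclideanSpace ℝ (Fin n)), IsConstructionC Λ →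
      (minimalVectors Λ).Finite ∧ (minimalVectors Λ).ncard ≤ K * n ^ 3 := by
    rintro n hn Λ ⟨a, C, hΛ⟩
    exact Pool.Agent.helper275_conc.card_min hK hn hΛ
  refine ⟨⟨K, hup⟩, ?_, ?_⟩
  · intro n hn
    obtain ⟨Λ, C, hΛ, F, hF, hc⟩ := Pool.Agent.helper275_conc.low_bound hn
    have hC : IsConstructionC Λ := ⟨1, C, hΛ⟩
    refine ⟨Λ, hC, hc.trans (Nat.mul_le_mul_left _ ?_)⟩
    have hfin := (hup n (by omega) Λ hC).1
    rw [← Set.ncard_coe_finset F]
    exact Set.ncard_le_ncard hF hfin
  · intro n Λ x hx y hy hxy
    exact Pool.Agent.helper275_conc.angle_min hx hy hxy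

end Pool.Agent.Results.MP_b5f63d_co.ConstructionCKissing
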