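import Pool.Agent.Helper909_ea.KissInf

/-!
# MP_b5f63d_co: kissing numbers of lattices with an elementary abelian group of symmetries

Let `τ_L(n)` be the largest number of shortest vectors of a lattice of `ℝ^n`, and `τ_L(p, k; n)` the
largest number of shortest vectors of a lattice of `ℝ^n` which is mapped to itself by a group of
(arbitrary) linear isometries isomorphic to `(ℤ/p)^k`, `p` a prime number, `(p - 1) k ≤ n`. We prove

`τ_L(n - (p-1) k) ≤ τ_L(p, k; n) ≤ (n + 1)^(p^(4t+2)) τ_L(n - (p-1)(k - n/(t+1) - p^(4t+2)))`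

for all `t` (the differences are at least `0`, the quotient is rounded down). So for `k = ⌊κ n⌋` the
upper and the lower exponent of `τ_L(p, k; n)` are exactly `(1 - (p-1) κ)` times the upper and the
lower exponent of `τ_L(n)`; and `τ_L(p, k; n) ≤ 2^(c₊ (n - (p-1) k) + o(n))`, uniformly in `p` and
`k ≥ κ n`, where `c₊` is the exponent of the kissing numbers of `ℝ^n` of the problem.

Proof of the upper bound. At most `n` of the real isotypic components `V_b` of the group are
nonzero, and their characters `b` span the dual group. Removing `t + 1` times a maximal independent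
set of characters shows that at least `k - n/(t+1)` of the characters `b` have the property that
all other components are killed by a product of at most `2t + 1` operators `p - N_e`, `N_e` the sum
of the powers of the group element `e`, which act on `V_b` as multiplication by `p`. So
`q P_b`, `q = p^(2t+1)`, `P_b` the orthogonal projection to `V_b`, maps the lattice `Λ` into itself,
and the components `P_b x`, `x ∈ Λ`, are zero or at least as long as the minimum divided by `q`. So
a shortest vector has at most `q²` nonzero components among these, and it is one of the shortest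
vectors of the lattice of the vectors of `Λ` orthogonal to the other components, the dimension of
which is at most `n - (p-1)(k - n/(t+1) - q²)` since `dim V_b ≥ p - 1`.
-/

open Filter

namespace Pool.Agent.Results.MP_b5f63d_co.ElementaryAbelianKissing

open Pool.Agent.H818R2 Pool.Agent.Helper909EA

/-- The exponent `c₊` of the kissing numbers. -/
noncomputable def cplus : ℝ := limsup (fun d : ℕ => Real.logb 2 (kissing d) / d) atTop

/-- Bounds for all dimensions. -/
def TwoSided : Prop :=
  ∀ p k n t : ℕ, p.Prime → (p - 1) * k ≤ n →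
    tauL (n - (p - 1) * k) ≤ tauSym p k n ∧
    tauSym p k n ≤ (n + 1) ^ (p ^ (4 * t + 2)) *
      tauL (n - (p - 1) * (k - n / (t + 1) - p ^ (4 * t + 2)))

/-- The exact exponents for `k = ⌊κ n⌋`. -/
def Exponents : Prop :=
  ∀ (p : ℕ) (κ : ℝ), p.Prime → 0 ≤ κ → ((p : ℝ) - 1) * κ ≤ 1 →
    limsup (fun n : ℕ => Real.logb 2 (tauSym p ⌊κ * n⌋₊ n) / n) atTop =
      (1 - ((p : ℝ) - 1) * κ) * limsup (fun n : ℕ => Real.logb 2 (tauL n) / n) atTop ∧
    liminf (fun n : ℕ => Real.logb 2 (tauSym p ⌊κ * n⌋₊ n) / n) atTop =
      (1 - ((p : ℝ) - 1) * κ) * liminf (fun n : ℕ => Real.logb 2 (tauL n) / n) atTop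

/-- Comparison with the kissing numbers of `ℝ^n`, uniformly in the prime and the rank. -/
def Uniform : Prop :=
  ∀ κ ε : ℝ, 0 < κ → 0 < ε → ∃ n0 : ℕ, ∀ n ≥ n0, ∀ p k : ℕ, p.Prime → κ * n ≤ k →
    (p - 1) * k ≤ n →
    (tauSym p k n : ℝ) ≤ (2 : ℝ) ^ (cplus * (n - ((p : ℝ) - 1) * k) + ε * n)

lemma cL_le : cL ≤ cplus := by
  unfold cL cplus
  apply limsup_le_limsup
  · refine Eventually.of_forall fun n => ?_
    apply div_le_div_of_nonneg_right _ (Nat.cast_nonneg n)
    exact logb_nat_mono (tauL_le_kissing n)
  · exact isCoboundedUnder_le_of_le atTop rate_nonneg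
  · refine ⟨Real.logb 2 ((1 + 2 * Real.sin (Real.pi / 3 / 2)) / Real.sin (Real.pi / 3 / 2)), ?_⟩
    rw [eventually_map]
    exact Eventually.of_forall fun d => codeRate_le sin_pos d

theorem result : TwoSided ∧ Exponents ∧ Uniform := by
  refine ⟨?_, ?_, ?_⟩
  · intro p k n t hp hk
    exact ⟨le_tauSym hp hk, tauSym_le hp t⟩
  · intro p κ hp hκ hκ1
    exact ⟨exponent hp hκ hκ1, exponent_inf hp hκ hκ1⟩
  · intro κ ε hκ hε
    obtain ⟨n0, h⟩ := asymp_uniform hκ hε
    refine ⟨n0, ?_⟩
    intro n hn p k hp hk hkn
    refine (h n hn p k hp hk hkn).trans ?_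
    apply Real.rpow_le_rpow_of_exponent_le (by norm_num)
    have h1 : (0 : ℝ) ≤ n - ((p : ℝ) - 1) * k := by
      have h2 : (((p - 1) * k : ℕ) : ℝ) ≤ n := by exact_mod_cast hkn
      rw [Nat.cast_mul, Nat.cast_sub hp.one_lt.le] at h2
      simp only [Nat.cast_one] at h2
      linarith
    have h3 := mul_le_mul_of_nonneg_right cL_le h1
    linarith

end Pool.Agent.Results.MP_b5f63d_co.ElementaryAbelianKissing
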