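import Pool.Agent.H442KS.Upper
import Pool.Agent.H442KS.Lower
import Pool.Agent.H442KS.Win

/-!
# MP_b5f63d_co: kissing configurations and their distances

A kissing configuration of `ℝ^n` is a finite set of unit vectors at mutual distances at least `1`
(`IsCode C 1`). We show, up to factors `2 ^ (δ n)`, `δ` arbitrarily small:

1. If the sets of points of `C` at mutual distances less than `τ` have at most `2 ^ (σ n)` points
   (`C` any finite set of unit vectors), then `|C| ≤ max(1, √2 / τ) ^ n`.
2. This is so if there is a function `F` on `C × C` whose matrix has rank at most `2 ^ (σ n)` and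
   which vanishes on the pairs of different points at distance less than `τ`, but not on the
   diagonal; the rank and the vanishing may refer to two different fields (such as `ℚ` and `𝔽_p`).
3. The points of `C` which see at most `σ n` different distances less than `τ` number at most
   `max(1, √2 / τ) ^ n`.
4. The points of a kissing configuration `C` whose distances less than `τ` to the other points of
   `C` lie in `s` windows `[a, (1 + ε) a]`, `s` fixed and `ε` small, number at most
   `max(1, √2 / τ) ^ n`. The same for all spherical codes.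
5. Conversely every kissing configuration `C₀` can be replaced by one, `C`, with at most `B n`
   different distances, `|C₀| ≤ 2 ^ (δ n) |C|`; the points of `C` are integral vectors of squared
   norm `M ≤ B n`, divided by `√M`. The same for all spherical codes.

So kissing configurations with `o(n)` distances less than `√2` are subexponential, those with `o(n)`
distances less than `√(3/2)` have at most `(2 / √3) ^ (n + o(n))` points, the lower bound of Wyner,
and the exponent of the kissing numbers is the one of the configurations with `O(n)` distances.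

Proof. 1: by averaging, some cap of angular radius `arcsin s` contains the share `s ^ (n + o(n))`
of `C`; for `s` slightly less than `τ / √2` boundedly many of its points are at mutual distances at
least `τ`, and so by Ramsey's theorem there are at most polynomially many, in the size of the
largest sets at mutual distances less than `τ`. 5: take `s` slightly less than `1`; the points of
the cap lie in a ball of radius `s < 1`; scale them by `const √n`, round to integral points, and
take the most frequent norm.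
-/

open Filter
open scoped Topology

namespace Pool.Agent.Results.MP_b5f63d_co.FewDistancesKissing

open Pool.Agent.H442KS

theorem result :
    -- 1: few mutually close points
    (∀ δ : ℝ, 0 < δ → ∃ σ : ℝ, 0 < σ ∧ ∀ᶠ n : ℕ in atTop,
      ∀ (C : Finset (EuclideanSpace ℝ (Fin n))) (τ : ℝ), (∀ x ∈ C, ‖x‖ = 1) → 0 < τ → ∀ N : ℕ,
        (N : ℝ) ≤ (2 : ℝ) ^ (σ * n) →
        (∀ Q ⊆ C, (∀ x ∈ Q, ∀ y ∈ Q, x ≠ y → dist x y < τ) → Q.card ≤ N) →
        (C.card : ℝ) ≤ ((2 : ℝ) ^ δ * max 1 (√2 / τ)) ^ n) ∧
    -- 2: kernels of small rank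
    (∀ δ : ℝ, 0 < δ → ∃ σ : ℝ, 0 < σ ∧ ∀ᶠ n : ℕ in atTop,
      ∀ (C : Finset (EuclideanSpace ℝ (Fin n))) (τ : ℝ), (∀ x ∈ C, ‖x‖ = 1) → 0 < τ →
        ∀ (K R k : Type) [Field K] [CommRing R] [Field k] (ψ : R →+* K) (φ : R →+* k)
          (F : C → C → R), Function.Injective ψ →
          ((Matrix.of fun x y => ψ (F x y)).rank : ℝ) ≤ (2 : ℝ) ^ (σ * n) →
          (∀ x, φ (F x x) ≠ 0) →
          (∀ x y : C, x ≠ y → dist (x : EuclideanSpace ℝ (Fin n)) y < τ → φ (F x y) = 0) →
          (C.card : ℝ) ≤ ((2 : ℝ) ^ δ * max 1 (√2 / τ)) ^ n) ∧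
    -- 3: few distances
    (∀ δ : ℝ, 0 < δ → ∃ σ : ℝ, 0 < σ ∧ ∀ᶠ n : ℕ in atTop,
      ∀ (C : Finset (EuclideanSpace ℝ (Fin n))) (τ : ℝ) (s : ℕ), (∀ x ∈ C, ‖x‖ = 1) → 0 < τ →
        (s : ℝ) ≤ σ * n →
        ((fewDist C τ s).card : ℝ) ≤ ((2 : ℝ) ^ δ * max 1 (√2 / τ)) ^ n) ∧
    -- 4: narrow windows of distances
    (∀ d τ δ : ℝ, 0 < d → d ≤ τ → 0 < δ → ∀ s : ℕ, ∃ ε : ℝ, 0 < ε ∧ ∀ᶠ n : ℕ in atTop,
      ∀ C : Finset (EuclideanSpace ℝ (Fin n)), IsCode C d →
        ((fewWin C τ s ε).card : ℝ) ≤ ((2 : ℝ) ^ δ * max 1 (√2 / τ)) ^ n) ∧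
    -- 5: linearly many distances suffice
    (∀ d δ : ℝ, 0 < d → d ≤ 2 → 0 < δ → ∃ B : ℕ, ∀ᶠ n : ℕ in atTop,
      ∀ C₀ : Finset (EuclideanSpace ℝ (Fin n)), IsCode C₀ d →
        ∃ C : Finset (EuclideanSpace ℝ (Fin n)), IsCode C d ∧ (dists C).card ≤ B * n ∧
          (∃ M : ℕ, 0 < M ∧ M ≤ B * n ∧ ∀ x ∈ C, ∀ i, ∃ z : ℤ, √(M : ℝ) * x i = z) ∧
          (C₀.card : ℝ) ≤ (2 : ℝ) ^ (δ * n) * C.card) :=
  ⟨fun _ hδ => sph_asym hδ, fun _ hδ => sph_kernel hδ, fun _ hδ => sph_few hδ,
    fun _ _ _ hd hτ hδ s => sph_win hd hτ hδ s, fun _ _ hd hd2 hδ => sph_linear hd hd2 hδ⟩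

end Pool.Agent.Results.MP_b5f63d_co.FewDistancesKissing
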