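import Pool.Agent.Helper909_ea.SphFin

/-!
# MP_b5f63d_co: kissing configurations with an elementary abelian group of symmetries

Let `τ(n)` be the kissing number of `ℝⁿ` and `τ(p, k; n)` the largest size of a kissing configuration
of `ℝⁿ` (a spherical code with angles at least `π/3`, not necessarily from a lattice) which is mapped
into itself by a group of (arbitrary) linear isometries of `ℝⁿ` isomorphic to `(ℤ/p)^k`. Put `c_p = 1`
for `p = 2` and `c_p = 2` for the odd primes. Such groups exist if and only if `c_p k ≤ n`. We prove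

`τ(n - c_p k) ≤ τ(p, k; n) ≤ (n + 1)^C τ(min(n, (n - c_p k) / (1 - c_p (c₊ + δ) / log_2 p) + C))`

with `C` depending on `δ > 0` only, whenever `c_p (c₊ + δ) < log_2 p` (`c₊` is the exponent of the
kissing numbers of the problem, at most `0.397`). So

`τ(p, k; n) ≤ 2^(c₊ (n - c_p k) / (1 - c_p c₊ / log_2 p) + o(n))`

uniformly in `p` and `k`: the logarithm of `τ(p, k; n)` is of the order of `n - c_p k`, up to `o(n)`. If
`c_p k ≥ 3n/4`, or `p = 2` and `k ≥ 7n/10`, then all these configurations are exponentially smaller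
than the largest ones.

Proof of the upper bound. Let `V_b` be the isotypic components of the group (`b` is a line of
characters), of dimensions `D_b ≥ c_p` for `b ≠ 0`. Choose the set `S` of components for which
`rank K(S) + β ∑_{b ∈ S} D_b` is maximal, `K(S)` the subgroup which acts trivially on the `V_b`,
`b ∈ S`, and `β = (c₊ + δ) / log_2 p`. Comparison with the empty set gives
`∑_{b ∈ S} D_b ≤ (n - c_p k) / (1 - c_p β)`. For a point `x` let `T` be the set of the `b ∉ S` with
nonzero component `x_b`. The orbit of `x` under `K(S)` has `p^r` points,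
`r = rank K(S) - rank K(S ∪ T) ≥ β ∑_{b ∈ T} D_b`, and the components of these points outside of
`T` are equal; so `p^r ≤ τ(∑_{b ∈ T} D_b)`, and `∑_{b ∈ T} D_b` is bounded. So all points are in
`(n + 1)^C` subspaces of the stated dimension.
-/

open Filter

namespace Pool.Agent.Results.MP_b5f63d_co.SymmetricConfigurations

open Pool.Agent.H818R2 Pool.Agent.H161R2.KissSym Pool.Agent.Helper909EA.Sph

/-- Bounds for all dimensions. -/
def TwoSided : Prop :=
  ∀ δ : ℝ, 0 < δ → ∃ C : ℕ, ∀ p k n : ℕ, p.Prime → cp p * k ≤ n →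
    kissing (n - cp p * k) ≤ kissSym p k n ∧
    (cp p * (cplus + δ) < Real.logb 2 p →
      kissSym p k n ≤ (n + 1) ^ C * kissing
        (min n (⌊((n : ℝ) - cp p * k) / (1 - cp p * ((cplus + δ) / Real.logb 2 p))⌋₊ + C)))

/-- The growth rate, uniformly in the prime and the rank. -/
def Rate : Prop :=
  ∀ ε : ℝ, 0 < ε → ∃ n0 : ℕ, ∀ n ≥ n0, ∀ p k : ℕ, p.Prime → cp p * k ≤ n →
    (kissSym p k n : ℝ) ≤
      (2 : ℝ) ^ (cplus * (n - cp p * k) / (1 - cp p / Real.logb 2 p * cplus) + ε * n)

/-- Groups of large rank. -/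
def Small : Prop :=
  ∃ n0 : ℕ, ∀ n ≥ n0, ∀ p k : ℕ, p.Prime → cp p * k ≤ n →
    (3 * n ≤ 4 * (cp p * k) ∨ p = 2 ∧ 7 * n ≤ 10 * k) →
    (kissSym p k n : ℝ) ≤ (2 : ℝ) ^ (-(n : ℝ) / 1000) * kissing n

theorem result :
    (∀ p k n : ℕ, p.Prime → ∀ X : Finset (E n), HasSym p k X → cp p * k ≤ n) ∧
    TwoSided ∧ Rate ∧ Small := by
  refine ⟨fun p k n hp X h => rank_le hp h, ?_, ?_, small⟩
  · intro δ hδ
    obtain ⟨C, hC⟩ := upper hδ
    refine ⟨C, fun p k n hp hk => ⟨lower hp hk, fun hβ => ?_⟩⟩
    exact kissSym_le fun X hX hs => hC p k n hp hβ X hX hs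
  · intro ε hε
    exact rate hε

end Pool.Agent.Results.MP_b5f63d_co.SymmetricConfigurations
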